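import Pool.Agent.Lib.MP_77ccbb_an.Neutral

/-!
Problem MP_77ccbb_an, question Q1, positive answer: outside the closure of the main cardioid the
bifurcation radius is strictly smaller than the distance to the boundary of the Mandelbrot set.
-/

open Set Filter Topology Metric

namespace Pool.Agent.Results.MP_77ccbb_an.Q1Positive

open Pool.Agent.Lib.MP_77ccbb_an

/-- Positive answer to Q1. Moreover, whenever `rbif c` equals the distance to the boundary of the
Mandelbrot set (and `c` is not on it), the only nearest boundary point is `1/4`. -/
theorem result :
    (∀ c : ℂ, c ∉ frontier mandelbrot → c ∉ mainCardioid →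
      rbif c < infDist c (frontier mandelbrot)) ∧
    ∀ c : ℂ, c ∉ frontier mandelbrot → rbif c = infDist c (frontier mandelbrot) →
      ∀ c₀ ∈ frontier mandelbrot, dist c c₀ = infDist c (frontier mandelbrot) → c₀ = 1 / 4 := by
  constructor
  · intro c hc hcard
    rcases lt_infDist_or c hc with h | h
    · exact h
    · exact absurd h.1 hcard
  · intro c hc heq
    rcases lt_infDist_or c hc with h | h
    · exact absurd heq h.ne
    · exact h.2

end Pool.Agent.Results.MP_77ccbb_an.Q1Positive
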