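import Pool.Agent.Lib.MP_77ccbb_an.Disk

/-!
Problem MP_77ccbb_an, question Q2, negative answer: there are parameters `c` outside
`∂M ∪ [0, 1/4]` for which the bifurcation radius equals the distance to `∂M`; in fact equality
holds on a complex neighbourhood of the real interval `(0, 1/4)`.
-/

open Set Filter Topology Metric

namespace Pool.Agent.Results.MP_77ccbb_an.Q2Negative

open Pool.Agent.Lib.MP_77ccbb_an

/-- Negative answer to Q2, together with an open set of counterexamples. -/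
theorem result :
    (∃ c : ℂ, c ∉ frontier mandelbrot ∧ c ∉ ((↑) : ℝ → ℂ) '' Icc 0 (1 / 4) ∧
      rbif c = infDist c (frontier mandelbrot)) ∧
    ∃ V : Set ℂ, IsOpen V ∧ (∀ x : ℝ, 0 < x → x < 1 / 4 → (x : ℂ) ∈ V) ∧
      ∀ c ∈ V, c ∉ frontier mandelbrot ∧ rbif c = infDist c (frontier mandelbrot) ∧
        rbif c = ‖c - 1 / 4‖ := by
  set V : Set ℂ := interior {c | c ∉ frontier mandelbrot ∧
    rbif c = infDist c (frontier mandelbrot) ∧ rbif c = ‖c - 1 / 4‖} with hV
  have hmem : ∀ x : ℝ, 0 < x → x < 1 / 4 → (x : ℂ) ∈ V := fun x hx0 hx1 =>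
    mem_interior_iff_mem_nhds.2 (eventually_eq hx0 hx1)
  have hsubV : V ⊆ {c | c ∉ frontier mandelbrot ∧
    rbif c = infDist c (frontier mandelbrot) ∧ rbif c = ‖c - 1 / 4‖} := interior_subset
  refine ⟨?_, V, isOpen_interior, hmem, fun c hc => hsubV hc⟩
  have h1 := isOpen_interior.mem_nhds (hmem (1 / 8) (by norm_num) (by norm_num))
  rw [Metric.mem_nhds_iff] at h1
  obtain ⟨s, hs, hsub⟩ := h1
  have h2 : (((1 / 8 : ℝ) : ℂ) + (s / 2 : ℝ) * Complex.I) ∈ V := by
    apply hsub
    rw [mem_ball, dist_eq_norm, add_sub_cancel_left, norm_mul, Complex.norm_I, mul_one,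
      Complex.norm_real, Real.norm_of_nonneg (by positivity)]
    linarith
  obtain ⟨h3, h4, _⟩ := hsubV h2
  refine ⟨_, h3, ?_, h4⟩
  rintro ⟨y, _, hy⟩
  have h5 := congrArg Complex.im hy
  simp at h5
  linarith

end Pool.Agent.Results.MP_77ccbb_an.Q2Negative
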